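import Mathlib
import Pool.Agent.N734.MZ.Even

/-!
# MP_03df5c_nt: relations between real multiple zeta values hold `p`-adically for almost all arguments

A pattern in `k` variables is a nonempty list of letters `b + u_1 s_1 + ... + u_k s_k`; at a tuple `s` of natural numbers
it gives an index. The first letters may be constant, of arbitrary weight, such as in `ζ(5, 1, s_1, 3, s_1 + s_2)`, and
all letters may be constant. The fronts of the pattern are the nonempty initial segments of the list of its constant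
first letters.

A family `Z` is a function from the indices to a commutative `ℚ`-algebra with the stuffle product, for example the
`p`-adic multiple zeta values for a prime `p`. The tuple `s` is bad for `Z` (and `D`, `H`) if a polynomial relation of
degree at most `D` with integer coefficients at most `H` between the real multiple zeta values of the patterns at `s`
fails for `Z`.

Theorem. Let `w_1, ..., w_r` be admissible patterns in `k` variables, and let `D`, `κ` be natural numbers.

(1) There is `K` such that for all `C` and all large `N` at most `K N ^ (k - 1)` of the tuples `s ∈ [N, κ N] ^ k` are bad,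
for `D` and `H = C ^ N`, for one of the families `Z` for which all the relations between the real multiple zeta values of
the (finitely many) fronts hold. So the statement of the question for the fronts implies it for almost all tuples, with an
exceptional set independent of `p`.

(2) If all constant first letters of the patterns are equal and even, in each pattern, such as in `ζ(2, 2, 2, s_1, 3)` and
`ζ(4, 4)`, this holds unconditionally for all families with `Z(2 m) = 0`, `m ≥ 1`: for all primes `p` at once.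

(3) Conversely the condition on the fronts in (1) is necessary. Let `Z` be a family in a domain, with `Z(s) ≠ 0` for all
large odd `s` (this holds for the `p`-adic multiple zeta values, since the Kubota–Leopoldt functions have finitely many
zeros). Then the following are equivalent: (a) all
polynomial relations between real multiple zeta values hold for `Z` (the question for `p`); (b) for all admissible
patterns `w_1, ..., w_r`, `D`, `κ` there is `K` such that for all `C` and all large `N` at most `K N ^ (k - 1)` tuples are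
bad for `Z`; (c) for all patterns in one variable with exactly one nonconstant letter `s + b`, and for each `B`, there are
arbitrarily large odd `s` for which all LINEAR relations with integer coefficients at most `B` between the real multiple
zeta values of the patterns at `s` hold for `Z`.

The starting files on this page treat patterns without constant first letters, or with constant first letters of weight
at most three (in one variable). The proof of (1) is the unused theorem `gen2` of `Pool.Agent.X90.DC` (starting library).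
For (2) the relations between the fronts are found with Newton's identities in the stuffle algebra and the
transcendence of `π`. For (c) ⇒ (a) a relation is linearised with the stuffle product and multiplied by `ζ(s)`.
-/

set_option autoImplicit false

namespace Pool.Agent.Results.MP_03df5c_nt.AlmostAllArguments

/-- `trunc [s_1, ..., s_r] m` is the sum of `∏ n_i ^ (-s_i)` over `m > n_1 > ... > n_r ≥ 1` -/
noncomputable def trunc : List ℕ → ℕ → ℝ
  | [], _ => 1
  | s :: l, m => ∑ j ∈ Finset.Ico 1 m, trunc l j / (j : ℝ) ^ s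

/-- the multiple zeta value `ζ(s_1, ..., s_r)`, `s_1` belongs to the largest variable -/
noncomputable def mzv : List ℕ → ℝ
  | [] => 1
  | s :: l => ∑' m : ℕ, trunc l (m + 1) / ((m + 1 : ℕ) : ℝ) ^ s

/-- admissible indices: `(s_1, ..., s_r)`, `r ≥ 1`, with `s_1 ≥ 2` and all `s_i ≥ 1` -/
def Admissible : List ℕ → Prop
  | [] => False
  | s :: l => 2 ≤ s ∧ ∀ t ∈ l, 1 ≤ t

/-- the list of the indices in the stuffle (series) product of two indices -/
def stuffles : List ℕ → List ℕ → List (List ℕ)
  | [], v => [v]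
  | x :: u, [] => [x :: u]
  | x :: u, y :: v =>
    (stuffles u (y :: v)).map (x :: ·) ++ (stuffles (x :: u) v).map (y :: ·) ++
      (stuffles u v).map ((x + y) :: ·)
termination_by k l => k.length + l.length

/-- the letter `(b, u)` stands for `b + ∑ u_j s_j` -/
abbrev Letter (k : ℕ) : Type := ℕ × (Fin k → ℕ)

/-- the index given by a pattern at the tuple `s` -/
def index {k : ℕ} (s : Fin k → ℕ) (w : List (Letter k)) : List ℕ :=
  w.map fun u => u.1 + ∑ j, u.2 j * s j

/-- nonempty patterns whose constant letters are positive, and whose first letter is at least two if it is constant -/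
def AdmissiblePattern {k : ℕ} (w : List (Letter k)) : Prop :=
  w ≠ [] ∧ (∀ u ∈ w.head?, u.2 ≠ 0 ∨ 2 ≤ u.1) ∧ ∀ u ∈ w, u.2 ≠ 0 ∨ 1 ≤ u.1

open Classical in
/-- the constant letters in front of the first letter which is not constant -/
def constantPart {k : ℕ} : List (Letter k) → List ℕ
  | [] => []
  | u :: w => if u.2 = 0 then u.1 :: constantPart w else []

/-- the fronts of the patterns: the nonempty initial segments of the constant parts -/
def fronts {k r : ℕ} (w : Fin r → List (Letter k)) : Set (List ℕ) :=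
  {q | q ≠ [] ∧ ∃ i, q <+: constantPart (w i)}

/-- the constant letters in front are equal and even: `2a, ..., 2a` (none is allowed) -/
def EvenFront {k : ℕ} (w : List (Letter k)) : Prop :=
  ∃ n a : ℕ, constantPart w = List.replicate n (2 * a)

/-- exactly one letter is not constant, and this letter is `s + b` -/
def OneLarge (w : List (Letter 1)) : Prop :=
  ∃ (p : List ℕ) (b : ℕ) (q : List ℕ), w = p.map (fun a => (a, 0)) ++ (b, 1) :: q.map (fun a => (a, 0))

/-- the function `Z` has the stuffle product -/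
def HasStuffle {A : Type} [CommRing A] (Z : List ℕ → A) : Prop :=
  ∀ u v, Admissible u → Admissible v → Z u * Z v = ((stuffles u v).map Z).sum

/-- every polynomial relation with rational coefficients between the real multiple zeta values of the admissible
indices in `S` holds for `Z` -/
def Transfers {A : Type} [CommRing A] [Algebra ℚ A] (S : Set (List ℕ)) (Z : List ℕ → A) : Prop :=
  ∀ f : MvPolynomial {u : List ℕ // Admissible u ∧ u ∈ S} ℚ,
    MvPolynomial.aeval (fun u => mzv u.1) f = 0 → MvPolynomial.aeval (fun u => Z u.1) f = 0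

/-- a polynomial relation of degree at most `D` with integer coefficients of absolute value at most `H` between the
real multiple zeta values of the patterns at `s` fails for `Z` -/
def Bad {k r : ℕ} (w : Fin r → List (Letter k)) (D : ℕ) (H : ℝ) {A : Type} [CommRing A] (Z : List ℕ → A)
    (s : Fin k → ℕ) : Prop :=
  ∃ P : MvPolynomial (Fin r) ℤ, P.totalDegree ≤ D ∧ (∀ m, |((P.coeff m : ℤ) : ℝ)| ≤ H) ∧
    MvPolynomial.aeval (fun i => mzv (index s (w i))) P = 0 ∧
    MvPolynomial.aeval (fun i => Z (index s (w i))) P ≠ 0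

/-- there is `K` such that for all `C` and all sufficiently large `N` at most `K N ^ (k - 1)` of the tuples
`s ∈ [N, κ N] ^ k` have the property `E (C ^ N)` -/
def Few {k : ℕ} (κ : ℕ) (E : ℝ → (Fin k → ℕ) → Prop) : Prop :=
  ∃ K : ℕ, ∀ C : ℝ, ∃ N₀ : ℕ, ∀ N : ℕ, N₀ ≤ N →
    {s : Fin k → ℕ | (∀ j, N ≤ s j ∧ s j ≤ κ * N) ∧ E (C ^ N) s}.ncard ≤ K * N ^ (k - 1)

open Pool.Agent.X90.DC (fpx)
open Pool.Agent.X90.DB (Ad ix ex)
open Pool.Agent.N734.MZ (St)

theorem trunc_eq : ∀ l m, trunc l m = Pool.Agent.Y760.ZG.hr l m := by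
  intro l
  induction l with
  | nil => intro m; rw [trunc, Pool.Agent.Y760.ZG.hr]
  | cons s l ih =>
    intro m
    rw [trunc, Pool.Agent.Y760.ZG.hr]
    exact Finset.sum_congr rfl fun j _ => by rw [ih]

theorem mzv_eq : ∀ l, mzv l = Pool.Agent.Y760.ZG.mz l := by
  intro l
  cases l with
  | nil => rw [mzv, Pool.Agent.Y760.ZG.mz]
  | cons s l =>
    rw [mzv, Pool.Agent.Y760.ZG.mz]
    exact tsum_congr fun k => by rw [trunc_eq]

theorem mzv_fun : mzv = Pool.Agent.Y760.ZG.mz := funext mzv_eq

theorem stuffles_eq : ∀ u v, stuffles u v = Pool.Agent.Y760.ZF.sti u v := by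
  intro u v
  induction u, v using Pool.Agent.Y760.ZF.sti.induct with
  | case1 v => rw [stuffles, Pool.Agent.Y760.ZF.sti]
  | case2 x u => rw [stuffles, Pool.Agent.Y760.ZF.sti]
  | case3 x u y v ih1 ih2 ih3 => rw [stuffles, Pool.Agent.Y760.ZF.sti, ih1, ih2, ih3]

theorem adm_iff : ∀ u, Admissible u ↔ Ad u := by
  intro u
  cases u with
  | nil => exact Iff.rfl
  | cons a l => exact Iff.rfl

theorem constantPart_eq {k : ℕ} : ∀ w : List (Letter k), constantPart w = fpx w := by
  intro w
  induction w with
  | nil => rw [constantPart, fpx]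
  | cons u w ih =>
    rw [constantPart, fpx, ih]

theorem st_iff {A : Type} [CommRing A] (Z : List ℕ → A) : HasStuffle Z ↔ St Z := by
  constructor
  · intro h u v hu hv
    rw [h u v ((adm_iff u).2 hu) ((adm_iff v).2 hv), stuffles_eq]
  · intro h u v hu hv
    rw [h u v ((adm_iff u).1 hu) ((adm_iff v).1 hv), stuffles_eq]

theorem index_ne {k : ℕ} (s : Fin k → ℕ) {w : List (Letter k)} (hw : w ≠ []) : index s w ≠ [] := by
  rw [index]
  intro h
  exact hw (List.map_eq_nil_iff.1 h)

theorem Few.mono {k κ : ℕ} {E E' : ℝ → (Fin k → ℕ) → Prop} (h : Few κ E) (hE : ∀ H s, E' H s → E H s) :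
    Few κ E' := by
  obtain ⟨K, hK⟩ := h
  refine ⟨K, fun C => ?_⟩
  obtain ⟨N₀, hN⟩ := hK C
  refine ⟨N₀, fun N hN' => (Set.ncard_le_ncard ?_ ?_).trans (hN N hN')⟩
  · rintro s ⟨h1, h2⟩
    exact ⟨h1, hE _ _ h2⟩
  · refine (Set.Finite.pi' (t := fun _ : Fin k => Set.Icc N (κ * N)) fun _ => Set.finite_Icc _ _).subset ?_
    intro s hs j
    exact ⟨(hs.1 j).1, (hs.1 j).2⟩

/-- the relations between the fronts, for integer coefficients -/
theorem rel_of {k r : ℕ} (w : Fin r → List (Letter k)) {A : Type} [CommRing A] [Algebra ℚ A] (Z : List ℕ → A)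
    (h : Transfers (fronts w) Z) (x : Fin 0 → ℂ) (y : Fin 0 → A) :
    Pool.Agent.X90.DC.Rel2 (fronts w) x y Z := by
  intro Q hQ
  set T : Type := {u : List ℕ // Admissible u ∧ u ∈ fronts w} with hT
  let ρ : Fin 0 ⊕ {p : List ℕ // Ad p ∧ p ∈ fronts w} → T :=
    Sum.elim (fun i => i.elim0) fun p => ⟨p.1, (adm_iff p.1).2 p.2.1, p.2.2⟩
  have h1 : ∀ (B : Type) [CommRing B] [Algebra ℚ B] (x : Fin 0 → B) (Z : List ℕ → B),
      MvPolynomial.aeval (fun u : T => Z u.1)
        (MvPolynomial.map (algebraMap ℤ ℚ) (MvPolynomial.rename ρ Q)) =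
      MvPolynomial.aeval (Sum.elim x fun p => Z p.1) Q := by
    intro B _ _ x Z
    rw [MvPolynomial.aeval_map_algebraMap, MvPolynomial.aeval_rename]
    congr 2
    funext i
    rcases i with i | i
    · exact i.elim0
    · rfl
  have h2 := h (MvPolynomial.map (algebraMap ℤ ℚ) (MvPolynomial.rename ρ Q)) (by
    rw [h1 ℝ (fun i => i.elim0) mzv, mzv_fun]
    have h3 : ((MvPolynomial.aeval (Sum.elim (fun i : Fin 0 => (i.elim0 : ℝ)) fun p :
        {p : List ℕ // Ad p ∧ p ∈ fronts w} => Pool.Agent.Y760.ZG.mz p.1) Q : ℝ) : ℂ) = 0 := by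
      rw [← hQ]
      have h4 : ∀ v : Fin 0 ⊕ {p : List ℕ // Ad p ∧ p ∈ fronts w} → ℝ,
          ((MvPolynomial.aeval v Q : ℝ) : ℂ) = MvPolynomial.aeval (fun i => ((v i : ℝ) : ℂ)) Q := by
        intro v
        have h5 := MvPolynomial.aeval_algebraMap_apply (A := ℝ) ℂ v Q
        exact h5.symm
      rw [h4]
      congr 2
      funext i
      rcases i with i | i
      · exact i.elim0
      · rfl
    exact_mod_cast h3)
  rw [h1 A y Z] at h2
  exact h2

/-- the conditions on the patterns, the fronts and the families, in part (1) -/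
def BadFor {k r : ℕ} (w : Fin r → List (Letter k)) (D : ℕ)
    (F : ∀ (A : Type) [CommRing A] [Algebra ℚ A], (List ℕ → A) → Prop) (H : ℝ) (s : Fin k → ℕ) : Prop :=
  ∃ (A : Type) (_ : CommRing A) (_ : Algebra ℚ A) (Z : List ℕ → A), HasStuffle Z ∧ F A Z ∧ Bad w D H Z s

/-- part (1) -/
theorem part1 {k r : ℕ} (w : Fin r → List (Letter k)) (hw : ∀ i, AdmissiblePattern (w i)) (D κ : ℕ) :
    Few κ (BadFor w D fun _ _ _ Z => Transfers (fronts w) Z) := by
  classical
  obtain ⟨K, hK⟩ := Pool.Agent.X90.DC.gen2 0 k r D w (fun i => (hw i).2) (fronts w)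
    (fun i q hq hne => ⟨hne, i, by rw [constantPart_eq]; exact hq⟩) κ
  refine ⟨K, fun C => ?_⟩
  obtain ⟨N₀, hN₀⟩ := hK C (fun i => i.elim0)
  refine ⟨N₀, fun N hN => ?_⟩
  have hfin : {s : Fin k → ℕ | (∀ j, N ≤ s j ∧ s j ≤ κ * N) ∧
      BadFor w D (fun _ _ _ Z => Transfers (fronts w) Z) (C ^ N) s}.Finite := by
    refine (Set.Finite.pi' (t := fun _ : Fin k => Set.Icc N (κ * N)) fun _ => Set.finite_Icc _ _).subset ?_
    intro s hs j
    exact ⟨(hs.1 j).1, (hs.1 j).2⟩
  rw [Set.ncard_eq_toFinset_card _ hfin]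
  refine hN₀ N hN _ fun s hs => ?_
  rw [Set.Finite.mem_toFinset] at hs
  obtain ⟨h1, A, i1, i2, Z, hZ, hF, P, h2, h3, h4, h5⟩ := hs
  let τ : Fin r → Fin 0 ⊕ Fin r := Sum.inr
  have h6 : ∀ (B : Type) [CommRing B] (x : Fin 0 → B) (v : Fin r → B),
      MvPolynomial.aeval (Sum.elim x v) (MvPolynomial.rename τ P) = MvPolynomial.aeval v P := by
    intro B _ x v
    rw [MvPolynomial.aeval_rename]
    rfl
  refine ⟨h1, MvPolynomial.rename τ P, (MvPolynomial.totalDegree_rename_le _ _).trans h2, fun m => ?_, ?_,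
    fun h => h5 ?_⟩
  · by_cases hm : ∃ u, Finsupp.mapDomain τ u = m
    · obtain ⟨u, rfl⟩ := hm
      rw [MvPolynomial.coeff_rename_mapDomain _ Sum.inr_injective]
      exact h3 u
    · rw [MvPolynomial.coeff_rename_eq_zero _ _ _ (fun u hu => absurd ⟨u, hu⟩ hm), Int.cast_zero, abs_zero]
      exact (abs_nonneg _).trans (h3 0)
  · rw [h6]
    have h7 := MvPolynomial.aeval_algebraMap_apply (A := ℝ) ℂ (fun i => mzv (index s (w i))) P
    rw [h4, map_zero] at h7
    rw [← h7, mzv_fun]
    rfl
  · have h8 := h A (fun i => i.elim0) Z (rel_of w Z hF _ _) ((st_iff Z).1 hZ)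
    rw [h6] at h8
    have h9 : ∀ i, ex Z (ix s (w i)) = Z (index s (w i)) :=
      fun i => Pool.Agent.X90.DB.ex_ne Z (index_ne s (hw i).1)
    simp only [h9] at h8
    exact h8

/-- the fronts of a pattern with an even front -/
theorem fronts_even {k r : ℕ} (w : Fin r → List (Letter k)) (hw : ∀ i, EvenFront (w i))
    (u : {u : List ℕ // Admissible u ∧ u ∈ fronts w}) :
    ∃ n a, 1 ≤ n ∧ 1 ≤ a ∧ u.1 = List.replicate n (2 * a) := by
  obtain ⟨u, hu, hne, i, hi⟩ := u
  obtain ⟨n, a, hc⟩ := hw i
  rw [hc, List.prefix_replicate_iff] at hi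
  refine ⟨u.length, a, ?_, ?_, hi.2⟩
  · exact List.length_pos_iff.2 hne
  · by_contra ha
    have ha0 : a = 0 := by omega
    cases u with
    | nil => exact hne rfl
    | cons b l =>
      have h1 : 2 ≤ b := hu.1
      have h2 := hi.2
      rw [List.length_cons, List.replicate_succ, List.cons.injEq] at h2
      omega

/-- part (2) -/
theorem part2 {k r : ℕ} (w : Fin r → List (Letter k)) (hw : ∀ i, AdmissiblePattern (w i))
    (he : ∀ i, EvenFront (w i)) (D κ : ℕ) :
    Few κ (BadFor w D fun _ _ _ Z => ∀ m, 1 ≤ m → Z [2 * m] = 0) := by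
  refine (part1 w hw D κ).mono fun H s => ?_
  rintro ⟨A, i1, i2, Z, hZ, h0, hB⟩
  refine ⟨A, i1, i2, Z, hZ, ?_, hB⟩
  intro f hf
  rw [mzv_fun] at hf
  exact Pool.Agent.N734.MZ.even_transfer (fun u : {u : List ℕ // Admissible u ∧ u ∈ fronts w} => u.1)
    (fronts_even w he) Z ((st_iff Z).1 hZ) h0 f hf

/-- statement (b) -/
def AlmostAll {A : Type} [CommRing A] (Z : List ℕ → A) : Prop :=
  ∀ (k r : ℕ) (w : Fin r → List (Letter k)), (∀ i, AdmissiblePattern (w i)) → ∀ D κ : ℕ,
    Few κ fun H s => Bad w D H Z s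

/-- statement (c) -/
def OneLargeArgument {A : Type} [CommRing A] (Z : List ℕ → A) : Prop :=
  ∀ (r : ℕ) (w : Fin r → List (Letter 1)), (∀ i, AdmissiblePattern (w i) ∧ OneLarge (w i)) → ∀ B s₁ : ℕ,
    ∃ s, s₁ ≤ s ∧ Odd s ∧ ∀ a : Fin r → ℤ, (∀ i, |a i| ≤ B) →
      ∑ i, (a i : ℝ) * mzv (index (fun _ => s) (w i)) = 0 →
      ∑ i, (a i : A) * Z (index (fun _ => s) (w i)) = 0

theorem a_to_b {A : Type} [CommRing A] [Algebra ℚ A] (Z : List ℕ → A) (hZ : HasStuffle Z)
    (h : Transfers Set.univ Z) : AlmostAll Z := by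
  intro k r w hw D κ
  refine (part1 w hw D κ).mono fun H s hB => ?_
  refine ⟨A, inferInstance, inferInstance, Z, hZ, ?_, hB⟩
  intro f hf
  let ρ : {u : List ℕ // Admissible u ∧ u ∈ fronts w} → {u : List ℕ // Admissible u ∧ u ∈ (Set.univ : Set (List ℕ))} :=
    fun u => ⟨u.1, u.2.1, trivial⟩
  have h1 := h (MvPolynomial.rename ρ f) (by
    rw [MvPolynomial.aeval_rename]
    exact hf)
  rw [MvPolynomial.aeval_rename] at h1
  exact h1

theorem b_to_c {A : Type} [CommRing A] (Z : List ℕ → A) (h : AlmostAll Z) : OneLargeArgument Z := by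
  classical
  intro r w hw B s₁
  by_contra hcon
  push Not at hcon
  obtain ⟨K, hK⟩ := h 1 r w (fun i => (hw i).1) 1 4
  obtain ⟨N₀, hN⟩ := hK (B + 1 : ℝ)
  set N := N₀ + s₁ + K + 2 with hNdef
  have h1 : {s : Fin 1 → ℕ | (∀ j, N ≤ s j ∧ s j ≤ 4 * N) ∧ Bad w 1 ((B + 1 : ℝ) ^ N) Z s}.ncard ≤
      K * N ^ (1 - 1) := hN N (by omega)
  rw [Nat.sub_self, pow_zero, mul_one] at h1
  let φ : ℕ → Fin 1 → ℕ := fun i _ => 2 * (N + i) + 1
  have hφ : Function.Injective φ := by
    intro i j hij
    have := congrFun hij 0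
    simp only [φ] at this
    omega
  have h2 : φ '' ((Finset.range (K + 1) : Finset ℕ) : Set ℕ) ⊆
      {s : Fin 1 → ℕ | (∀ j, N ≤ s j ∧ s j ≤ 4 * N) ∧ Bad w 1 ((B + 1 : ℝ) ^ N) Z s} := by
    rintro s ⟨i, hi, rfl⟩
    rw [Finset.mem_coe, Finset.mem_range] at hi
    refine ⟨fun j => ⟨by simp only [φ]; omega, by simp only [φ]; omega⟩, ?_⟩
    obtain ⟨a, ha, hR, hA⟩ := hcon (2 * (N + i) + 1) (by omega) ⟨N + i, rfl⟩
    refine ⟨∑ i, MvPolynomial.C (a i) * MvPolynomial.X i, ?_, fun m => ?_, ?_, ?_⟩
    · refine MvPolynomial.totalDegree_finsetSum_le fun i _ => ?_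
      refine (MvPolynomial.totalDegree_mul _ _).trans ?_
      rw [MvPolynomial.totalDegree_C, zero_add]
      exact (MvPolynomial.totalDegree_X _).le
    · rw [MvPolynomial.coeff_sum]
      simp only [MvPolynomial.coeff_C_mul, MvPolynomial.coeff_X]
      have hB1 : (B : ℝ) ≤ (B + 1 : ℝ) ^ N := by
        have h3 : (B + 1 : ℝ) ^ 1 ≤ (B + 1 : ℝ) ^ N :=
          pow_le_pow_right₀ (by have := Nat.cast_nonneg (α := ℝ) B; linarith) (by omega)
        rw [pow_one] at h3
        linarith
      refine le_trans ?_ hB1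
      by_cases hm : ∃ i, Finsupp.single i 1 = m
      · obtain ⟨i₀, rfl⟩ := hm
        have h4 : ∑ x, a x * (if Finsupp.single x 1 = Finsupp.single i₀ 1 then (1 : ℤ) else 0) = a i₀ := by
          rw [Finset.sum_eq_single i₀]
          · rw [if_pos rfl, mul_one]
          · intro x _ hx
            rw [if_neg, mul_zero]
            intro h5
            exact hx ((Finsupp.single_left_inj one_ne_zero).1 h5)
          · intro h5
            exact absurd (Finset.mem_univ _) h5
        rw [h4]
        exact_mod_cast ha i₀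
      · have h4 : ∑ x, a x * (if Finsupp.single x 1 = m then (1 : ℤ) else 0) = 0 := by
          refine Finset.sum_eq_zero fun x _ => ?_
          rw [if_neg fun h5 => hm ⟨x, h5⟩, mul_zero]
        rw [h4, Int.cast_zero, abs_zero]
        exact Nat.cast_nonneg _
    · rw [map_sum]
      refine Eq.trans (Finset.sum_congr rfl fun i _ => ?_) hR
      rw [map_mul, MvPolynomial.aeval_C, MvPolynomial.aeval_X]
      rfl
    · rw [map_sum]
      intro h5
      refine hA (Eq.trans (Finset.sum_congr rfl fun i _ => ?_) h5)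
      rw [map_mul, MvPolynomial.aeval_C, MvPolynomial.aeval_X]
      rfl
  have hfin : {s : Fin 1 → ℕ | (∀ j, N ≤ s j ∧ s j ≤ 4 * N) ∧ Bad w 1 ((B + 1 : ℝ) ^ N) Z s}.Finite := by
    refine (Set.Finite.pi' (t := fun _ : Fin 1 => Set.Icc N (4 * N)) fun _ => Set.finite_Icc _ _).subset ?_
    intro s hs j
    exact ⟨(hs.1 j).1, (hs.1 j).2⟩
  have h3 := Set.ncard_le_ncard h2 hfin
  rw [Set.ncard_image_of_injective _ hφ, Set.ncard_coe_finset, Finset.card_range] at h3
  omega

theorem c_to_a {A : Type} [CommRing A] [IsDomain A] [Algebra ℚ A] (Z : List ℕ → A) (hZ : HasStuffle Z)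
    (s₀ : ℕ) (hne : ∀ s, s₀ ≤ s → Odd s → Z [s] ≠ 0) (h : OneLargeArgument Z) : Transfers Set.univ Z := by
  intro f hf
  rw [mzv_fun] at hf
  refine Pool.Agent.N734.MZ.back (fun u : {u : List ℕ // Admissible u ∧ u ∈ (Set.univ : Set (List ℕ))} => u.1)
    (fun u => (adm_iff u.1).1 u.2.1) A Z ((st_iff Z).1 hZ) s₀ hne ?_ f hf
  intro r w hw B s₁
  have hw' : ∀ i, AdmissiblePattern (w i) ∧ OneLarge (w i) := by
    intro i
    refine ⟨⟨?_, (hw i).1⟩, (hw i).2⟩
    obtain ⟨p, b, q, h4⟩ := (hw i).2
    rw [h4]
    simp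
  obtain ⟨s, h1, h2, h3⟩ := h r w hw' B s₁
  refine ⟨s, h1, h2, fun a ha h4 => h3 a ha ?_⟩
  rw [mzv_fun]
  exact h4

/-- **Theorem.** (1) For admissible patterns `w_1, ..., w_r` in `k` variables and `D`, `κ` there is `K` such that for all
`C` and all large `N` at most `K N ^ (k - 1)` tuples `s ∈ [N, κ N] ^ k` are bad, for the degree `D` and the height
`C ^ N`, for one of the families `Z` with the stuffle product for which the relations between the real multiple zeta
values of the fronts hold. (2) If the fronts are even, the same holds for the families with `Z(2 m) = 0` for all `m ≥ 1`.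
(3) For a family `Z` with the stuffle product in a domain, with `Z(s) ≠ 0` for all large odd `s`, the following are
equivalent: all polynomial relations between real multiple zeta values hold for `Z`; for all patterns, `D`, `κ` there is
`K` such that for all `C` and all large `N` at most `K N ^ (k - 1)` tuples are bad for `Z`; for all patterns with exactly
one nonconstant letter `s + b` and all `B` there are arbitrarily large odd `s` for which all linear relations with integer
coefficients at most `B` between the real multiple zeta values of the patterns at `s` hold for `Z`. -/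
theorem result :
    (∀ (k r : ℕ) (w : Fin r → List (Letter k)), (∀ i, AdmissiblePattern (w i)) → ∀ D κ : ℕ,
      Few κ (BadFor w D fun _ _ _ Z => Transfers (fronts w) Z)) ∧
    (∀ (k r : ℕ) (w : Fin r → List (Letter k)), (∀ i, AdmissiblePattern (w i)) → (∀ i, EvenFront (w i)) →
      ∀ D κ : ℕ, Few κ (BadFor w D fun _ _ _ Z => ∀ m, 1 ≤ m → Z [2 * m] = 0)) ∧
    ∀ (A : Type) [CommRing A] [IsDomain A] [Algebra ℚ A] (Z : List ℕ → A), HasStuffle Z →
      (∃ s₀, ∀ s, s₀ ≤ s → Odd s → Z [s] ≠ 0) →
      (Transfers Set.univ Z ↔ AlmostAll Z) ∧ (AlmostAll Z ↔ OneLargeArgument Z) := by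
  refine ⟨fun k r w hw D κ => part1 w hw D κ, fun k r w hw he D κ => part2 w hw he D κ, ?_⟩
  intro A _ _ _ Z hZ hs
  obtain ⟨s₀, hne⟩ := hs
  exact ⟨⟨a_to_b Z hZ, fun h => c_to_a Z hZ s₀ hne (b_to_c Z h)⟩,
    ⟨b_to_c Z, fun h => a_to_b Z hZ (c_to_a Z hZ s₀ hne h)⟩⟩

end Pool.Agent.Results.MP_03df5c_nt.AlmostAllArguments
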