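import Pool.Agent.N84.MD.F
import Pool.Agent.Results.MP_03df5c_nt.AlmostAllArguments

/-!
# MP_03df5c_nt: relations between real and `p`-adic multiple zeta values near the dilates of almost every real vector

A pattern in `k` variables is a nonempty list of letters `b + u_1 s_1 + ... + u_k s_k`; at a tuple `s` of natural numbers
it gives an index. The first letters may be constant. A family `Z` is a function from the indices to a commutative
`ℚ`-algebra with the stuffle product, for example the `p`-adic multiple zeta values for a prime `p`. The tuple `s` is bad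
for `Z` (and `D`, `H`) if a polynomial relation of degree at most `D` with integer coefficients at most `H` between the real
multiple zeta values of the patterns at `s` fails for `Z`.

Let `M` be a set of integers such that the sum of the `N ^ (-σ)`, `N ∈ M`, converges (the squares with any `σ > 1 / 2`, the
powers of `2` with any `σ > 0`), and `τ > 0`. A real vector `ξ` with positive coordinates is good if for all large `N ∈ M` NO
tuple `s` of integers near `N ξ`, `|s_j - N ξ_j| ≤ N ^ (1 - τ)` (for instance `s_j = [N ξ_j]`, `τ = 1`), is bad for `D` and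
`H = C ^ N`.

Theorem. (1) All `ξ` but a set of Hausdorff dimension at most `(k - 1 + σ) / τ` are good, for all families `Z` at once for which
all the relations between the real multiple zeta values of the (finitely many) constant fronts of the patterns hold; if the
fronts are even (`2a, ..., 2a`, or empty), for all families with `Z(2 m) = 0`, `m ≥ 1`, unconditionally: for all primes `p` at
once. If `k - 1 + σ < τ k` almost all `ξ` are good.

(2) Conversely, let `Z` be a family in a domain, with `Z(s) ≠ 0` for all large odd `s` (this holds for the `p`-adic multiple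
zeta values). Then the following are equivalent: (a) all polynomial relations between real multiple zeta values hold for `Z`
(the question for `p`); (b) the conclusion of (1) holds for `Z` and all patterns; (c) for all patterns in one variable with
exactly one letter which is not constant, `s + b`, and all `C`, there are ONE number `ξ > 0` and ONE infinite set `M` such that
for all large `N ∈ M` and all `s` with `|s - N ξ| ≤ 1` the relations of degree one with integer coefficients at most `C ^ N`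
between the real multiple zeta values of the patterns at `s` hold for `Z`.

`AlmostAllArguments` (helper734) bounds the number of the bad tuples in `[N, κ N] ^ k` by `K N ^ (k - 1)`, which does not
exclude that there are bad tuples near all the points `N ξ`. Here the size of the set of the exceptional `ξ` is estimated, by
the Hausdorff-Cantelli lemma (`Pool.Agent.N84.MD`, helper84).
-/

set_option autoImplicit false

open Set Filter MeasureTheory
open scoped ENNReal

namespace Pool.Agent.Results.MP_03df5c_nt.AlongRealTuples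

open AlmostAllArguments (mzv Letter index AdmissiblePattern fronts EvenFront OneLarge HasStuffle Transfers Bad BadFor Few
  part1 part2 c_to_a OneLargeArgument)

/-- For all large `N` in `M` the property `E (C ^ N)` fails for ALL tuples `s` of natural numbers with
`|ξ_j - s_j / N| ≤ N ^ (-τ)`. -/
def AllNearDilates {k : ℕ} (C : ℝ) (M : Set ℕ) (τ : ℝ) (E : ℝ → (Fin k → ℕ) → Prop) (ξ : Fin k → ℝ) : Prop :=
  ∀ᶠ N : ℕ in atTop, N ∈ M → ∀ s : Fin k → ℕ, (∀ j, |ξ j - s j / N| ≤ (N : ℝ) ^ (-τ)) → ¬ E (C ^ N) s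

/-- If the sum of the `N ^ (-σ)`, `N ∈ M`, converges and `τ > 0` then `AllNearDilates` holds for all real vectors with positive
coordinates but a set of Hausdorff dimension at most `(k - 1 + σ) / τ`, and for almost all of them if `k - 1 + σ < τ k`. -/
def Metric {k : ℕ} (E : ℝ → (Fin k → ℕ) → Prop) : Prop :=
  ∀ (C : ℝ) (M : Set ℕ) (σ τ : ℝ), 0 < σ → 0 < τ → (Summable fun N : M => ((N : ℕ) : ℝ) ^ (-σ)) →
    dimH {ξ : Fin k → ℝ | (∀ j, 0 < ξ j) ∧ ¬ AllNearDilates C M τ E ξ} ≤ ENNReal.ofReal (((k : ℝ) - 1 + σ) / τ) ∧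
    ((k : ℝ) - 1 + σ < τ * k → ∀ᵐ ξ : Fin k → ℝ, (∀ j, 0 < ξ j) → AllNearDilates C M τ E ξ)

/-- statement (b): the tuples near the dilates of almost all real vectors are not bad for `Z`, for all patterns -/
def AllVectors {A : Type} [CommRing A] (Z : List ℕ → A) : Prop :=
  ∀ (k r : ℕ), 1 ≤ k → ∀ w : Fin r → List (Letter k), (∀ i, AdmissiblePattern (w i)) → ∀ D : ℕ,
    Metric (fun H s => Bad w D H Z s)

/-- statement (c): for all patterns in one variable with exactly one letter which is not constant, `s + b`, and all `C` there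
are a real number `ξ > 0` and an infinite set `M` such that for all large `N ∈ M` the numbers `s` with `|ξ - s / N| ≤ 1 / N`
are not bad for `Z`, the degree one and the height `C ^ N` -/
def OneNumber {A : Type} [CommRing A] (Z : List ℕ → A) : Prop :=
  ∀ (r : ℕ) (w : Fin r → List (Letter 1)), (∀ i, AdmissiblePattern (w i) ∧ OneLarge (w i)) → ∀ C : ℝ,
    ∃ (ξ : Fin 1 → ℝ) (M : Set ℕ), (∀ j, 0 < ξ j) ∧ M.Infinite ∧ AllNearDilates C M 1 (fun H s => Bad w 1 H Z s) ξ

lemma metric_of_few {k : ℕ} (hk : 1 ≤ k) {E : ℝ → (Fin k → ℕ) → Prop} (hE : ∀ H H' s, H ≤ H' → E H s → E H' s)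
    (h : ∀ κ : ℕ, Few κ E) : Metric E := by
  intro C M σ τ hσ hτ hM
  have hk1 : (1 : ℝ) ≤ k := by exact_mod_cast hk
  have hs : 0 ≤ (k : ℝ) - 1 := by linarith
  have hbad : ∀ κ : ℕ, 1 ≤ κ → ∃ (C' : ℝ) (N₀ : ℕ), ∀ N : ℕ, N₀ ≤ N →
      ({s : Fin k → ℕ | (∀ j, N ≤ κ * s j ∧ s j ≤ κ * N) ∧ s ∈ {s : Fin k → ℕ | E (C ^ N) s}}.ncard : ℝ) ≤
        C' * (N : ℝ) ^ ((k : ℝ) - 1) := by
    intro κ hκ
    obtain ⟨K, hK⟩ := h (2 * κ ^ 2)
    obtain ⟨N₀, hN₀⟩ := hK ((max |C| 1) ^ (2 * κ))
    refine ⟨K, κ * (N₀ + 1), fun N hN => ?_⟩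
    obtain ⟨N', hN'⟩ : ∃ N', N' = N / κ := ⟨_, rfl⟩
    have h1 : N₀ + 1 ≤ N' := by
      rw [hN', Nat.le_div_iff_mul_le (by omega), mul_comm]
      exact hN
    have h2 : κ * N' ≤ N := by
      rw [hN']
      exact Nat.mul_div_le N κ
    have h3 : N ≤ 2 * κ * N' := by
      have h4 : N < κ * (N' + 1) := by
        rw [hN']
        have := Nat.div_add_mod N κ
        have := Nat.mod_lt N (show 0 < κ by omega)
        nlinarith
      nlinarith
    have hsub : {s : Fin k → ℕ | (∀ j, N ≤ κ * s j ∧ s j ≤ κ * N) ∧ s ∈ {s : Fin k → ℕ | E (C ^ N) s}} ⊆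
        {s : Fin k → ℕ | (∀ j, N' ≤ s j ∧ s j ≤ (2 * κ ^ 2) * N') ∧ E (((max |C| 1) ^ (2 * κ)) ^ N') s} := by
      rintro s ⟨hs1, hs2⟩
      refine ⟨fun j => ⟨?_, ?_⟩, hE _ _ s ?_ hs2⟩
      · have := (hs1 j).1
        exact Nat.le_of_mul_le_mul_left (h2.trans this) (by omega)
      · refine (hs1 j).2.trans ?_
        calc κ * N ≤ κ * (2 * κ * N') := Nat.mul_le_mul_left κ h3
          _ = 2 * κ ^ 2 * N' := by ring
      · have h5 : (1 : ℝ) ≤ max |C| 1 := le_max_right _ _
        calc C ^ N ≤ |C ^ N| := le_abs_self _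
          _ = |C| ^ N := abs_pow C N
          _ ≤ (max |C| 1) ^ N := pow_le_pow_left₀ (abs_nonneg C) (le_max_left _ _) N
          _ ≤ (max |C| 1) ^ (2 * κ * N') := pow_le_pow_right₀ h5 h3
          _ = _ := pow_mul _ _ _
    have hfin : {s : Fin k → ℕ | (∀ j, N' ≤ s j ∧ s j ≤ (2 * κ ^ 2) * N') ∧
        E (((max |C| 1) ^ (2 * κ)) ^ N') s}.Finite := by
      refine (Set.Finite.pi (fun _ : Fin k => Set.finite_Iic (2 * κ ^ 2 * N'))).subset ?_
      intro s hs j _
      exact (hs.1 j).2
    have h6 := (Set.ncard_le_ncard hsub hfin).trans (hN₀ N' (by omega))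
    have h7 : N' ≤ N := by
      rw [hN']
      exact Nat.div_le_self N κ
    have h8 : {s : Fin k → ℕ | (∀ j, N ≤ κ * s j ∧ s j ≤ κ * N) ∧ s ∈ {s : Fin k → ℕ | E (C ^ N) s}}.ncard ≤
        K * N ^ (k - 1) := h6.trans (Nat.mul_le_mul_left K (Nat.pow_le_pow_left h7 _))
    have h9 : (N : ℝ) ^ ((k : ℝ) - 1) = (N : ℝ) ^ (k - 1) := by
      rw [← Real.rpow_natCast, Nat.cast_sub hk, Nat.cast_one]
    rw [h9]
    exact_mod_cast h8
  refine ⟨?_, fun hlt => ?_⟩
  · have := Pool.Agent.N84.MD.boxes (fun N => {s : Fin k → ℕ | E (C ^ N) s}) hs hσ hτ hbad M hM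
    simpa only [AllNearDilates, Set.mem_ofPred_eq] using this
  · have := Pool.Agent.N84.MD.boxes_ae (fun N => {s : Fin k → ℕ | E (C ^ N) s}) hs hσ hτ hbad M hM hlt
    simpa only [AllNearDilates, Set.mem_ofPred_eq] using this

lemma bad_mono {k r : ℕ} (w : Fin r → List (Letter k)) (D : ℕ) {A : Type} [CommRing A] (Z : List ℕ → A) (H H' : ℝ)
    (s : Fin k → ℕ) (h : H ≤ H') (hB : Bad w D H Z s) : Bad w D H' Z s := by
  obtain ⟨P, h1, h2, h3, h4⟩ := hB
  exact ⟨P, h1, fun m => (h2 m).trans h, h3, h4⟩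

lemma badFor_mono {k r : ℕ} (w : Fin r → List (Letter k)) (D : ℕ)
    (F : ∀ (A : Type) [CommRing A] [Algebra ℚ A], (List ℕ → A) → Prop) (H H' : ℝ) (s : Fin k → ℕ) (h : H ≤ H')
    (hB : BadFor w D F H s) : BadFor w D F H' s := by
  obtain ⟨A, i1, i2, Z, h1, h2, h3⟩ := hB
  exact ⟨A, i1, i2, Z, h1, h2, bad_mono w D Z H H' s h h3⟩

lemma all_of_transfers {A : Type} [CommRing A] [Algebra ℚ A] (Z : List ℕ → A) (hZ : HasStuffle Z)
    (h : Transfers Set.univ Z) : AllVectors Z := by
  intro k r hk w hw D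
  exact metric_of_few hk (fun H H' s => bad_mono w D Z H H' s)
    (fun κ => AlmostAllArguments.a_to_b Z hZ h k r w hw D κ)

/-- the powers of two -/
lemma summable_two : Summable fun N : (Set.range fun i : ℕ => 2 ^ i) => ((N : ℕ) : ℝ) ^ (-(1 / 2 : ℝ)) := by
  have hinj : Function.Injective fun i : ℕ => 2 ^ i := Nat.pow_right_injective le_rfl
  rw [← (Equiv.ofInjective _ hinj).summable_iff]
  have h1 : ((fun N : (Set.range fun i : ℕ => 2 ^ i) => ((N : ℕ) : ℝ) ^ (-(1 / 2 : ℝ))) ∘ (Equiv.ofInjective _ hinj)) =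
      fun i : ℕ => ((2 : ℝ) ^ (-(1 / 2 : ℝ))) ^ i := by
    funext i
    change (((2 ^ i : ℕ)) : ℝ) ^ (-(1 / 2 : ℝ)) = _
    push_cast
    rw [← Real.rpow_natCast, ← Real.rpow_natCast, ← Real.rpow_mul (by norm_num), ← Real.rpow_mul (by norm_num), mul_comm]
  rw [h1]
  exact summable_geometric_of_lt_one (by positivity) (Real.rpow_lt_one_of_one_lt_of_neg (by norm_num) (by norm_num))

lemma one_of_all {A : Type} [CommRing A] (Z : List ℕ → A) (h : AllVectors Z) : OneNumber Z := by
  intro r w hw C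
  obtain ⟨-, h1⟩ := h 1 r le_rfl w (fun i => (hw i).1) 1 C (Set.range fun i : ℕ => 2 ^ i) (1 / 2) 1 (by norm_num) one_pos
    summable_two
  have h2 := h1 (by norm_num)
  have h3 : ∃ᵐ ξ : Fin 1 → ℝ, ∀ j, 0 < ξ j := by
    rw [frequently_ae_iff]
    have hopen : IsOpen {ξ : Fin 1 → ℝ | ∀ j, 0 < ξ j} := by
      simp only [Set.setOf_forall]
      exact isOpen_iInter_of_finite fun j => isOpen_lt continuous_const (continuous_apply j)
    exact (hopen.measure_pos volume ⟨fun _ => 1, fun _ => one_pos⟩).ne'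
  obtain ⟨ξ, h4, h5⟩ := (h3.and_eventually h2).exists
  exact ⟨ξ, _, h4, Set.infinite_range_of_injective (Nat.pow_right_injective le_rfl), h5 h4⟩

/-- a linear relation which fails for `Z` -/
lemma bad_of_linear {k r : ℕ} (w : Fin r → List (Letter k)) {A : Type} [CommRing A] (Z : List ℕ → A) (s : Fin k → ℕ)
    (B : ℕ) (H : ℝ) (hB1 : (B : ℝ) ≤ H) (a : Fin r → ℤ) (ha : ∀ i, |a i| ≤ B)
    (hR : ∑ i, (a i : ℝ) * mzv (index s (w i)) = 0) (hA : ∑ i, (a i : A) * Z (index s (w i)) ≠ 0) : Bad w 1 H Z s := by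
  classical
  refine ⟨∑ i, MvPolynomial.C (a i) * MvPolynomial.X i, ?_, fun m => ?_, ?_, ?_⟩
  · refine MvPolynomial.totalDegree_finsetSum_le fun i _ => ?_
    refine (MvPolynomial.totalDegree_mul _ _).trans ?_
    rw [MvPolynomial.totalDegree_C, zero_add]
    exact (MvPolynomial.totalDegree_X _).le
  · rw [MvPolynomial.coeff_sum]
    simp only [MvPolynomial.coeff_C_mul, MvPolynomial.coeff_X]
    refine le_trans ?_ hB1
    by_cases hm : ∃ i, Finsupp.single i 1 = m
    · obtain ⟨i₀, rfl⟩ := hm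
      have h4 : ∑ x, a x * (if Finsupp.single x 1 = Finsupp.single i₀ 1 then (1 : ℤ) else 0) = a i₀ := by
        rw [Finset.sum_eq_single i₀]
        · rw [if_pos rfl, mul_one]
        · intro x _ hx
          rw [if_neg, mul_zero]
          intro h5
          exact hx ((Finsupp.single_left_inj one_ne_zero).1 h5)
        · intro h5
          exact absurd (Finset.mem_univ _) h5
      rw [h4]
      exact_mod_cast ha i₀
    · have h4 : ∑ x, a x * (if Finsupp.single x 1 = m then (1 : ℤ) else 0) = 0 := by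
        refine Finset.sum_eq_zero fun x _ => ?_
        rw [if_neg fun h5 => hm ⟨x, h5⟩, mul_zero]
      rw [h4, Int.cast_zero, abs_zero]
      exact Nat.cast_nonneg _
  · rw [map_sum]
    refine Eq.trans (Finset.sum_congr rfl fun i _ => ?_) hR
    rw [map_mul, MvPolynomial.aeval_C, MvPolynomial.aeval_X]
    rfl
  · rw [map_sum]
    intro h5
    refine hA (Eq.trans (Finset.sum_congr rfl fun i _ => ?_) h5)
    rw [map_mul, MvPolynomial.aeval_C, MvPolynomial.aeval_X]
    rfl

lemma large_of_one {A : Type} [CommRing A] (Z : List ℕ → A) (h : OneNumber Z) : OneLargeArgument Z := by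
  intro r w hw B s₁
  obtain ⟨ξ, M, hξ, hM, h1⟩ := h r w hw (B + 1 : ℝ)
  obtain ⟨N₀, hN₀⟩ := eventually_atTop.1 h1
  have hx := hξ 0
  obtain ⟨L, hL⟩ := exists_nat_ge (((s₁ : ℝ) + 1) / ξ 0)
  obtain ⟨N, hNM, hN⟩ := hM.exists_gt (N₀ + L + 1)
  have hN0 : (0 : ℝ) < N := by exact_mod_cast (by omega : 0 < N)
  have hLN : (L : ℝ) ≤ N := by exact_mod_cast (by omega : L ≤ N)
  have hbig : (s₁ : ℝ) + 1 ≤ N * ξ 0 := by
    rw [div_le_iff₀ hx] at hL
    nlinarith
  obtain ⟨v, hv⟩ : ∃ v : ℕ, v = ⌊(N : ℝ) * ξ 0 / 2⌋₊ := ⟨_, rfl⟩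
  have hv1 : (v : ℝ) ≤ N * ξ 0 / 2 := by
    rw [hv]
    exact Nat.floor_le (by positivity)
  have hv2 : (N : ℝ) * ξ 0 / 2 < v + 1 := by
    rw [hv]
    exact Nat.lt_floor_add_one _
  refine ⟨2 * v + 1, ?_, ⟨v, rfl⟩, fun a ha hR => ?_⟩
  · have h2 : (s₁ : ℝ) < ((2 * v + 1 : ℕ) : ℝ) + 1 := by
      push_cast
      linarith
    have h3 : s₁ < 2 * v + 1 + 1 := by exact_mod_cast h2
    omega
  · by_contra hA
    refine hN₀ N (by omega) hNM (fun _ => 2 * v + 1) (fun j => ?_)
      (bad_of_linear w Z (fun _ => 2 * v + 1) B _ ?_ a ha hR hA)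
    · have hj : j = 0 := Subsingleton.elim _ _
      subst hj
      rw [Real.rpow_neg hN0.le, Real.rpow_one]
      have h4 : ξ 0 - ((2 * v + 1 : ℕ) : ℝ) / N = (N * ξ 0 - (2 * v + 1)) * (N : ℝ)⁻¹ := by
        push_cast
        field_simp
      change |ξ 0 - ((2 * v + 1 : ℕ) : ℝ) / N| ≤ (N : ℝ)⁻¹
      rw [h4, abs_mul, abs_of_pos (inv_pos.2 hN0)]
      refine mul_le_of_le_one_left (inv_pos.2 hN0).le ?_
      rw [abs_le]
      constructor <;> linarith
    · have h3 : (B + 1 : ℝ) ^ 1 ≤ (B + 1 : ℝ) ^ N :=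
        pow_le_pow_right₀ (by have := Nat.cast_nonneg (α := ℝ) B; linarith) (by omega)
      rw [pow_one] at h3
      linarith

/-- **Theorem.** (1) Let `w_1, ..., w_r` be admissible patterns in `k ≥ 1` variables and `D` a natural number. Let `C` be a real
number, `M` a set of integers such that the sum of the `N ^ (-σ)`, `N ∈ M`, converges (`σ > 0`), and `τ > 0`. For all real
vectors `ξ` with positive coordinates but a set of Hausdorff dimension at most `(k - 1 + σ) / τ` (and for almost all of them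
if `k - 1 + σ < τ k`), for all large `N ∈ M`, no tuple `s` with `|ξ_j - s_j / N| ≤ N ^ (-τ)` is bad, for the degree `D` and the
height `C ^ N`, for a family `Z` with the stuffle product for which the relations between the real multiple zeta values of the
fronts hold; if the fronts are even, for a family with `Z(2 m) = 0` for all `m ≥ 1`. (2) For a family `Z` with the stuffle
product in a domain, with `Z(s) ≠ 0` for all large odd `s`, the following are equivalent: all polynomial relations between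
real multiple zeta values hold for `Z`; `AllVectors Z`; `OneNumber Z`. -/
theorem result :
    (∀ (k r : ℕ), 1 ≤ k → ∀ w : Fin r → List (Letter k), (∀ i, AdmissiblePattern (w i)) → ∀ D : ℕ,
      Metric (BadFor w D fun _ _ _ Z => Transfers (fronts w) Z) ∧
      ((∀ i, EvenFront (w i)) → Metric (BadFor w D fun _ _ _ Z => ∀ m, 1 ≤ m → Z [2 * m] = 0))) ∧
    ∀ (A : Type) [CommRing A] [IsDomain A] [Algebra ℚ A] (Z : List ℕ → A), HasStuffle Z →
      (∃ s₀, ∀ s, s₀ ≤ s → Odd s → Z [s] ≠ 0) →
      (Transfers Set.univ Z ↔ AllVectors Z) ∧ (AllVectors Z ↔ OneNumber Z) := by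
  refine ⟨fun k r hk w hw D => ⟨?_, fun he => ?_⟩, ?_⟩
  · exact metric_of_few hk (fun H H' s => badFor_mono w D _ H H' s) (fun κ => part1 w hw D κ)
  · exact metric_of_few hk (fun H H' s => badFor_mono w D _ H H' s) (fun κ => part2 w hw he D κ)
  · intro A _ _ _ Z hZ hs
    obtain ⟨s₀, hne⟩ := hs
    have hback : OneNumber Z → Transfers Set.univ Z := fun h => c_to_a Z hZ s₀ hne (large_of_one Z h)
    exact ⟨⟨all_of_transfers Z hZ, fun h => hback (one_of_all Z h)⟩,
      ⟨one_of_all Z, fun h => all_of_transfers Z hZ (hback h)⟩⟩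

end Pool.Agent.Results.MP_03df5c_nt.AlongRealTuples
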