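import Pool.Agent.N628.CMT.Gen
import Pool.Agent.Results.MP_03df5c_nt.AlmostAllArguments

/-!
# MP_03df5c_nt: relations between real multiple zeta values with arguments near all multiples of Carmichael's function hold
# `p`-adically

A pattern in `k` variables is a nonempty list of letters `b + u_1 s_1 + ... + u_k s_k`; at a tuple `s` of natural numbers
it gives an index. A family `Z` is a function from the indices to a commutative `ℚ`-algebra with the stuffle product, for
example the `p`-adic multiple zeta values for a prime `p`. The tuple `s` is bad for `Z` (and `D`, `H`) if a polynomial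
relation of degree at most `D` with integer coefficients at most `H` between the real multiple zeta values of the patterns at
`s` fails for `Z`.

Let `w_1, ..., w_r` be admissible patterns in `k` variables. Let `B ≥ 1`, `B (k - 1) < k`; for `k = 1` every `B` is allowed. We
prove: for all `k`-tuples `m` of positive integers up to `N` but `N^k / (log N)^U`, for EVERY tuple `v` of multiples
`v_i ≤ N^B` of Carmichael's function `λ(m_i)`, for ALL tuples `s = (a_i v_i + b_i)` with integers `a_i ≠ 0`,
`|a_i|, |b_i| ≤ v_l^η` for some `l`, and all `X` with `X ≤ s_i ≤ κ X` for all `i`, the tuple `s` is not bad, for `D` and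
`H = C ^ X`: for all families with `Z(2 m) = 0`, `m ≥ 1` (so for all primes `p` at once), if the constant first letters of each
pattern are equal and even; and for arbitrary patterns for all families for which the relations between the real multiple zeta
values of the fronts hold.

The theorem `AlmostAllArguments` of this page (helper734) bounds the number of the bad tuples in `[N, κ N] ^ k` by
`K N ^ (k - 1)`. But a single `v ≤ N^B` can be a multiple of `λ(m)` for more than `N^(1 - ε)` numbers `m ≤ N` (popular
values), and all multiples `v_i` of `λ(m_i)` up to `N^B`, with all their windows, are considered at once. So this does not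
follow from the number of the bad tuples. The proof uses the tool `N790/CM` of helper790.
-/

set_option autoImplicit false

namespace Pool.Agent.Results.MP_03df5c_nt.CarmichaelMultiples

open Pool.Agent.N790.CM (FewTimes Carries fewTimes_pred carries_carmichael)
open Pool.Agent.N628.CMT (NearMultiple powers)
open Pool.Agent.Results.MP_03df5c_nt.AlmostAllArguments
  (Letter AdmissiblePattern EvenFront Transfers fronts Bad BadFor HasStuffle)

/-- For all `κ`, `C`, all `F_1, ..., F_k` which take each positive value at most `T` times at the primes and all `U`, for all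
large `N` and all but at most `N^k / (log N)^U` of the tuples `m` of integers in `[1, N]`: for ALL `v` with `1 ≤ v_i ≤ N^B` and
`F_i(p) ∣ v_i` for all primes `p > exp (√(log N))` which divide `m_i` exactly once, for ALL tuples `s` of natural numbers
`s_i = a_i v_i + b_i` with integers `a_i ≠ 0`, `|a_i|, |b_i| ≤ v_l^η` for some `l`, and all `X ≥ 1` with `X ≤ s_i ≤ κ X` for
all `i`, the property `E (C ^ X)` fails for `s`. -/
def FailsNearMultiples {k : ℕ} (B η : ℝ) (E : ℝ → (Fin k → ℕ) → Prop) : Prop :=
  ∀ (κ : ℕ) (C : ℝ) (T : ℕ) (F : Fin k → ℕ → ℕ), (∀ i, FewTimes (F i) T) → ∀ U : ℕ, ∃ N₀ : ℕ, ∀ N : ℕ, N₀ ≤ N →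
    ({m : Fin k → ℕ | (∀ i, 1 ≤ m i ∧ m i ≤ N) ∧ ¬ ∀ v : Fin k → ℕ, (∀ i, 1 ≤ v i ∧ (v i : ℝ) ≤ (N : ℝ) ^ B ∧
      Carries (F i) (Real.exp √(Real.log N)) (m i) (v i)) → ∀ (s : Fin k → ℕ) (X : ℕ), 1 ≤ X →
      (∀ i, X ≤ s i ∧ s i ≤ κ * X) → NearMultiple η v s → ¬ E (C ^ X) s}.ncard : ℝ) ≤
      (N : ℝ) ^ k / Real.log N ^ U

theorem badFor_mono {k r : ℕ} (w : Fin r → List (Letter k)) (D : ℕ)
    (G : ∀ (A : Type) [CommRing A] [Algebra ℚ A], (List ℕ → A) → Prop) (H H' : ℝ) (s : Fin k → ℕ) (h : H ≤ H')
    (hs : BadFor w D G H s) : BadFor w D G H' s := by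
  obtain ⟨A, i1, i2, Z, h1, h2, P, h3, h4, h5⟩ := hs
  exact ⟨A, i1, i2, Z, h1, h2, P, h3, fun m => (h4 m).trans h, h5⟩

/-- Let `k ≥ 1`, `B ≥ 1`, `B (k - 1) < k`. There is `η > 0` such that for all admissible patterns `w_1, ..., w_r` in `k`
variables and all `D`: (1) if the constant first letters of each pattern are equal and even, then for almost all `m` no tuple
`s` near a tuple of common multiples `v_i ≤ N^B` is bad, for `D` and `H = C ^ X`, for any family with `Z(2 m) = 0`, `m ≥ 1`;
(2) for arbitrary patterns the same holds for the families for which the relations between the real multiple zeta values of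
the fronts hold. The function `f(p) = p - 1` takes each value at most once, and every multiple of Carmichael's function
`λ(m)` is divisible by `p - 1` for all `p ∣ m`. -/
theorem result :
    (∀ k : ℕ, 1 ≤ k → ∀ B : ℝ, 1 ≤ B → B * ((k : ℝ) - 1) < k → ∃ η : ℝ, 0 < η ∧
      ∀ (r : ℕ) (w : Fin r → List (Letter k)), (∀ i, AdmissiblePattern (w i)) → ∀ D : ℕ,
      ((∀ i, EvenFront (w i)) →
        FailsNearMultiples B η (BadFor w D fun _ _ _ Z => ∀ m, 1 ≤ m → Z [2 * m] = 0)) ∧
      FailsNearMultiples B η (BadFor w D fun _ _ _ Z => Transfers (fronts w) Z)) ∧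
    FewTimes (fun p => p - 1) 1 ∧
    ∀ (y : ℝ) (m v : ℕ), ArithmeticFunction.carmichael m ∣ v → Carries (fun p => p - 1) y m v := by
  refine ⟨fun k hk B hB hBk => ?_, fewTimes_pred, carries_carmichael⟩
  obtain ⟨η, hη, h⟩ := powers hk hB hBk
  refine ⟨η, hη, fun r w hw D => ⟨fun hf κ C T F hF U => ?_, fun κ C T F hF U => ?_⟩⟩
  · exact h _ (fun H H' s => badFor_mono w D _ H H' s) (fun κ' => AlmostAllArguments.result.2.1 k r w hw hf D κ')
      κ C T F hF U
  · exact h _ (fun H H' s => badFor_mono w D _ H H' s) (fun κ' => AlmostAllArguments.result.1 k r w hw D κ')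
      κ C T F hF U

end Pool.Agent.Results.MP_03df5c_nt.CarmichaelMultiples
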